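import Pool.Agent.Helper129.QG.Curve
import Pool.Agent.QG129.TaskHull
import Pool.Agent.QG129.TaskFrontier
import Pool.Agent.Helper129.QG.Link

/-!
# MP_c5a4a7_gt: the number of simple closed quasigeodesics through vertices is not bounded

The surface of the regular tetrahedron carries infinitely many simple closed quasigeodesics which pass
through a vertex.  So there is no bound in terms of the number of vertices of a convex polyhedron.
-/

set_option autoImplicit false

namespace Pool.Agent.Results.MP_c5a4a7_gt.RegularTetrahedron

open Pool.Agent.Helper129.QG

/-- There is no function `f` such that every nondegenerate convex polyhedron with `n` vertices has at most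
`f n` simple closed quasigeodesics which pass through at least one vertex; the regular tetrahedron, which
has four vertices, has infinitely many of them. -/
theorem result :
    (¬ ∃ f : ℕ → ℕ, ∀ (n : ℕ) (K : Set E3), IsPolytope K n →
      (vertexQuasigeodesics K).encard ≤ f n) ∧
    IsPolytope tet 4 ∧ (vertexQuasigeodesics tet).Infinite := by
  have hH := Pool.Agent.QG129.TaskHull.main
  have hF := Pool.Agent.QG129.TaskFrontier.main hH
  have hL := link hF
  exact ⟨no_bound hH hF hL, polytope_tet hH hF, infinite_tet hF hL⟩

end Pool.Agent.Results.MP_c5a4a7_gt.RegularTetrahedron
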